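import Pool.Agent.H647R3.DD

/-!
# Images of differentiability spaces
-/

set_option autoImplicit false

open Set Topology Filter

universe u

namespace Pool.Agent.Y264.AI

open H647R3.Fac

variable {G E : Type u} [AddCommGroup G] [Module ℝ G] [TopologicalSpace G]
  [IsTopologicalAddGroup G] [ContinuousSMul ℝ G] [AddCommGroup E] [Module ℝ E]
  [TopologicalSpace E] [IsTopologicalAddGroup E] [ContinuousSMul ℝ E]

/-- small second differences pass to the image -/
theorem sd_image (T : G →L[ℝ] E) {𝓑G : Set (Set G)} {𝓑E : Set (Set E)}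
    (hlift : ∀ B ∈ 𝓑E, ∀ U ∈ 𝓝 (0 : E), ∃ B' ∈ 𝓑G, ∀ h ∈ B, ∃ h' ∈ B', h - T h' ∈ U)
    {D : Set E} (hD : IsOpen D) {f : E → ℝ} (hfc : ContinuousOn f D) (hf : ConvexOn ℝ D f)
    {x : G} (hx : T x ∈ D) (hs : SD 𝓑G (T ⁻¹' D) (fun z => f (T z)) x) : SD 𝓑E D f (T x) := by
  set p : E := T x with hp
  -- a neighbourhood on which `f` is bounded above
  have hW : {v : E | p + v ∈ D ∧ f (p + v) < f p + 1} ∈ 𝓝 (0 : E) := by
    have h1 : ContinuousAt (fun v : E => p + v) 0 := by fun_prop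
    have h2 : ContinuousAt f ((fun v : E => p + v) 0) := by
      simp only [add_zero]
      exact hfc.continuousAt (hD.mem_nhds hx)
    have h3 : ContinuousAt (fun v : E => f (p + v)) 0 := h2.comp h1
    have h4 : ∀ᶠ v in 𝓝 (0 : E), f (p + v) < f p + 1 := by
      apply h3.eventually_lt continuousAt_const
      simp
    have h5 : ∀ᶠ v in 𝓝 (0 : E), p + v ∈ D := by
      apply h1.eventually
      simp only [add_zero]
      exact hD.mem_nhds hx
    exact h5.and h4
  have hW' : {v : E | p + -v ∈ D ∧ f (p + -v) < f p + 1} ∈ 𝓝 (0 : E) := by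
    have h1 : Tendsto (fun v : E => -v) (𝓝 0) (𝓝 0) := by
      have : ContinuousAt (fun v : E => -v) 0 := by fun_prop
      simpa [ContinuousAt] using this
    exact h1 hW
  intro B hB ε hε
  set η : ℝ := ε / 4 with hη
  have hη0 : 0 < η := by positivity
  have hU : {u : E | (η⁻¹ • u) ∈ {v : E | p + v ∈ D ∧ f (p + v) < f p + 1} ∩
      {v : E | p + -v ∈ D ∧ f (p + -v) < f p + 1}} ∈ 𝓝 (0 : E) := by
    have h1 : Tendsto (fun u : E => η⁻¹ • u) (𝓝 0) (𝓝 0) := by
      have : ContinuousAt (fun u : E => η⁻¹ • u) 0 := by fun_prop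
      simpa [ContinuousAt] using this
    exact h1 (inter_mem hW hW')
  obtain ⟨B', hB', hBB⟩ := hlift B hB _ hU
  obtain ⟨δ', hδ', hS⟩ := hs B' hB' (ε / 4) (by positivity)
  refine ⟨min (δ' / 2) (1 / (2 * η)), by positivity, fun h hh t ht1 ht2 => ?_⟩
  have ht3 : 2 * t < δ' := by
    have := lt_of_lt_of_le ht2 (min_le_left _ _)
    linarith
  have ht4 : 2 * t * η < 1 := by
    have := lt_of_lt_of_le ht2 (min_le_right _ _)
    rw [lt_div_iff₀ (by positivity)] at this
    linarith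
  obtain ⟨h', hh', ⟨⟨hv1, hv2⟩, hv3, hv4⟩⟩ := hBB h hh
  obtain ⟨hS1, hS2, hS3⟩ := hS h' hh' (2 * t) (by positivity) ht3
  set w : E := h - T h' with hw
  set v : E := η⁻¹ • w with hv
  have hwv : w = η • v := by rw [hv, smul_smul, mul_inv_cancel₀ hη0.ne', one_smul]
  have hs0 : 0 ≤ 2 * t * η := by positivity
  -- the points in the direction `v`
  have hcomb : ∀ e : E, p + (2 * t * η) • e = (1 - 2 * t * η) • p + (2 * t * η) • (p + e) := by
    intro e
    module
  have hDv : ∀ e : E, p + e ∈ D → p + (2 * t * η) • e ∈ D := by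
    intro e he
    rw [hcomb]
    exact hf.1 hx he (by linarith) hs0 (by ring)
  have hfv : ∀ e : E, p + e ∈ D → f (p + e) < f p + 1 →
      f (p + (2 * t * η) • e) ≤ f p + 2 * t * η := by
    intro e he he2
    rw [hcomb]
    refine (hf.2 hx he (by linarith) hs0 (by ring)).trans ?_
    simp only [smul_eq_mul]
    nlinarith
  have e1 : p + t • h = (1 / 2 : ℝ) • (T (x + (2 * t) • h')) + (1 / 2 : ℝ) •
      (p + (2 * t * η) • v) := by
    rw [map_add, map_smul, ← hp]
    have : h = T h' + η • v := by rw [← hwv, hw]; abel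
    rw [this]
    module
  have e2 : p - t • h = (1 / 2 : ℝ) • (T (x - (2 * t) • h')) + (1 / 2 : ℝ) •
      (p + (2 * t * η) • (-v)) := by
    rw [map_sub, map_smul, ← hp]
    have : h = T h' + η • v := by rw [← hwv, hw]; abel
    rw [this]
    module
  have d1 := hDv v hv1
  have d2 := hDv (-v) hv3
  have c1 := hf.2 hS1 d1 (show (0 : ℝ) ≤ 1 / 2 by norm_num) (show (0 : ℝ) ≤ 1 / 2 by norm_num)
    (by norm_num)
  have c2 := hf.2 hS2 d2 (show (0 : ℝ) ≤ 1 / 2 by norm_num) (show (0 : ℝ) ≤ 1 / 2 by norm_num)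
    (by norm_num)
  rw [← e1] at c1
  rw [← e2] at c2
  have g1 := hfv v hv1 hv2
  have g2 := hfv (-v) hv3 hv4
  refine ⟨?_, ?_, ?_⟩
  · rw [e1]
    exact hf.1 hS1 d1 (by norm_num) (by norm_num) (by norm_num)
  · rw [e2]
    exact hf.1 hS2 d2 (by norm_num) (by norm_num) (by norm_num)
  · simp only [smul_eq_mul] at c1 c2
    have hS4 : f (T (x + (2 * t) • h')) + f (T (x - (2 * t) • h')) - 2 * f p ≤
        ε / 4 * (2 * t) := hS3
    have hη4 : 2 * t * η = t * ε / 2 := by rw [hη]; ring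
    have hη5 : ε / 4 * (2 * t) = t * ε / 2 := by ring
    have hη6 : 0 ≤ t * ε := by positivity
    rw [hη5] at hS4
    have g3 : f (p + (2 * t * η) • v) ≤ f p + t * ε / 2 := by rw [← hη4]; exact g1
    have g4 : f (p + (2 * t * η) • (-v)) ≤ f p + t * ε / 2 := by rw [← hη4]; exact g2
    have g5 : ε * t = t * ε := mul_comm _ _
    rw [g5]
    linarith

/-- density of the points with small second differences passes to the image -/
theorem dense_image (T : G →L[ℝ] E) (hT : DenseRange T) {𝓑G : Set (Set G)} {𝓑E : Set (Set E)}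
    (hlift : ∀ B ∈ 𝓑E, ∀ U ∈ 𝓝 (0 : E), ∃ B' ∈ 𝓑G, ∀ h ∈ B, ∃ h' ∈ B', h - T h' ∈ U)
    (hG : ∀ D : Set G, D.Nonempty → IsOpen D → Convex ℝ D → ∀ f : G → ℝ, ContinuousOn f D →
      ConvexOn ℝ D f → D ⊆ closure {x | x ∈ D ∧ SD 𝓑G D f x})
    {D : Set E} (hD : IsOpen D) (hDc : Convex ℝ D) {f : E → ℝ} (hfc : ContinuousOn f D)
    (hf : ConvexOn ℝ D f) : D ⊆ closure {x | x ∈ D ∧ SD 𝓑E D f x} := by
  intro x hx
  rw [mem_closure_iff]
  intro O hO hxO
  obtain ⟨z, hz⟩ := hT.exists_mem_open (hO.inter hD) ⟨x, hxO, hx⟩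
  have h1 := hG (T ⁻¹' D) ⟨z, hz.2⟩ (hD.preimage T.continuous)
    (hDc.linear_preimage T.toLinearMap) (fun z => f (T z))
    (hfc.comp T.continuous.continuousOn fun z hz => hz)
    ⟨hDc.linear_preimage T.toLinearMap, fun a ha b hb s t hs ht hst => by
      have := hf.2 ha hb hs ht hst
      simpa only [map_add, map_smul] using this⟩
  obtain ⟨z', hz1, hz2, hz3⟩ := mem_closure_iff.1 (h1 hz.2) (T ⁻¹' O)
    (hO.preimage T.continuous) hz.1
  exact ⟨T z', hz1, hz2, sd_image T hlift hD hfc hf hz2 hz3⟩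

/-- `T` almost lifts bounded sets: every bounded set is contained in `T B' + U` with a bounded set
`B'`, for every neighbourhood `U` of zero -/
def AlmostLifts (T : G →L[ℝ] E) : Prop :=
  ∀ B : Set E, Bornology.IsVonNBounded ℝ B → ∀ U ∈ 𝓝 (0 : E),
    ∃ B' : Set G, Bornology.IsVonNBounded ℝ B' ∧ ∀ h ∈ B, ∃ h' ∈ B', h - T h' ∈ U

lemma AlmostLifts.denseRange {T : G →L[ℝ] E} (hT : AlmostLifts T) : DenseRange T := by
  intro h
  rw [mem_closure_iff_nhds]
  intro V hV
  have hU : {u : E | h - u ∈ V} ∈ 𝓝 (0 : E) := by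
    have h1 : ContinuousAt (fun u : E => h - u) 0 := by fun_prop
    have h2 : V ∈ 𝓝 ((fun u : E => h - u) 0) := by simpa using hV
    exact h1 h2
  obtain ⟨B', -, hB'⟩ := hT {h} (Bornology.isVonNBounded_singleton h) _ hU
  obtain ⟨h', -, hh'⟩ := hB' h rfl
  refine ⟨T h', ?_, mem_range_self _⟩
  have : h - (h - T h') = T h' := by abel
  change h - (h - T h') ∈ V at hh'
  rwa [this] at hh'

theorem fds_image (hG : IsFDS G) (T : G →L[ℝ] E) (hT : AlmostLifts T) : IsFDS E := by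
  intro D hne hD hDc f hfc hf
  refine (dense_image T hT.denseRange (𝓑G := bdd G) (𝓑E := bdd E)
    (fun B hB U hU => hT B hB U hU) (fun D hne hD hDc f hfc hf => (hG D hne hD hDc f hfc hf).trans
      (closure_mono fun x hx => ⟨hx.1, sd_of_diff (frechet_iff.1 hx.2)⟩)) hD hDc hfc hf).trans
    (closure_mono fun x hx => ⟨hx.1, frechet_iff.2 (diff_of_sd hD hfc hf hx.1
      (fun h => singleton_bdd h) hx.2)⟩)

theorem gds_image (hG : IsGDS G) (T : G →L[ℝ] E) (hT : DenseRange T) : IsGDS E := by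
  intro D hne hD hDc f hfc hf
  refine (dense_image T hT (𝓑G := sing G) (𝓑E := sing E) ?_
    (fun D hne hD hDc f hfc hf => (hG D hne hD hDc f hfc hf).trans
      (closure_mono fun x hx => ⟨hx.1, sd_of_diff (gateaux_iff.1 hx.2)⟩)) hD hDc hfc hf).trans
    (closure_mono fun x hx => ⟨hx.1, gateaux_iff.2 (diff_of_sd hD hfc hf hx.1
      (fun h => ⟨h, rfl⟩) hx.2)⟩)
  rintro B ⟨h, rfl⟩ U hU
  have hV : {e : E | h - e ∈ U} ∈ 𝓝 h := by
    have h1 : ContinuousAt (fun e : E => h - e) h := by fun_prop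
    have h2 : U ∈ 𝓝 ((fun e : E => h - e) h) := by simpa using hU
    exact h1 h2
  obtain ⟨e, he1, he2⟩ := mem_closure_iff_nhds.1 (hT h) _ hV
  obtain ⟨h', rfl⟩ := he2
  exact ⟨{h'}, ⟨h', rfl⟩, fun a ha => ⟨h', rfl, by rw [mem_singleton_iff.1 ha]; exact he1⟩⟩

end Pool.Agent.Y264.AI
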