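import Pool.Agent.Y264.AI.Img

/-!
# Factors and images of (weak) Asplund spaces
-/

set_option autoImplicit false

open Set Topology Filter

universe u

namespace Pool.Agent.Y264.AI

open H647R3.Fac

variable (E : Type u) [AddCommGroup E] [Module ℝ E] [TopologicalSpace E]
  [IsTopologicalAddGroup E] [ContinuousSMul ℝ E]

/-- `E` is a factor of an Asplund space -/
def AsplundFactor : Prop :=
  ∃ (F : Type u) (_ : AddCommGroup F) (_ : Module ℝ F) (_ : TopologicalSpace F)
    (_ : IsTopologicalAddGroup F) (_ : ContinuousSMul ℝ F) (_ : LocallyConvexSpace ℝ F)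
    (_ : T2Space F), IsAsplund (E × F)

/-- `E` is a factor of a weak Asplund space -/
def WeakAsplundFactor : Prop :=
  ∃ (F : Type u) (_ : AddCommGroup F) (_ : Module ℝ F) (_ : TopologicalSpace F)
    (_ : IsTopologicalAddGroup F) (_ : ContinuousSMul ℝ F) (_ : LocallyConvexSpace ℝ F)
    (_ : T2Space F), IsWeakAsplund (E × F)

/-- there is an operator from an Asplund space to `E` which almost lifts bounded sets -/
def AsplundImage : Prop :=
  ∃ (G : Type u) (_ : AddCommGroup G) (_ : Module ℝ G) (_ : TopologicalSpace G)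
    (_ : IsTopologicalAddGroup G) (_ : ContinuousSMul ℝ G) (_ : LocallyConvexSpace ℝ G)
    (_ : T2Space G), IsAsplund G ∧ ∃ T : G →L[ℝ] E, AlmostLifts T

/-- there is an operator with dense range from a weak Asplund space to `E` -/
def WeakAsplundImage : Prop :=
  ∃ (G : Type u) (_ : AddCommGroup G) (_ : Module ℝ G) (_ : TopologicalSpace G)
    (_ : IsTopologicalAddGroup G) (_ : ContinuousSMul ℝ G) (_ : LocallyConvexSpace ℝ G)
    (_ : T2Space G), IsWeakAsplund G ∧ ∃ T : G →L[ℝ] E, DenseRange T

variable {E}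

lemma fds_of_asplund (h : IsAsplund E) : IsFDS E := by
  intro D hne hD hDc f hfc hf
  obtain ⟨S, hS1, -, hS2, hS3⟩ := h D hne hD hDc f hfc hf
  exact hS2.trans (closure_mono fun x hx => ⟨hS1 hx, hS3 x hx⟩)

lemma gds_of_weak (h : IsWeakAsplund E) : IsGDS E := by
  intro D hne hD hDc f hfc hf
  obtain ⟨S, hS1, -, hS2, hS3⟩ := h D hne hD hDc f hfc hf
  exact hS2.trans (closure_mono fun x hx => ⟨hS1 hx, hS3 x hx⟩)

theorem main_f [LocallyConvexSpace ℝ E] [T2Space E] :
    [IsFDS E, AsplundFactor E, AsplundImage E].TFAE := by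
  tfae_have 1 → 2 := fun h => frechet_main.1 h
  tfae_have 2 → 3 := by
    rintro ⟨F, i1, i2, i3, i4, i5, i6, i7, h⟩
    refine ⟨E × F, inferInstance, inferInstance, inferInstance, inferInstance, inferInstance,
      inferInstance, inferInstance, h, ContinuousLinearMap.fst ℝ E F, ?_⟩
    intro B hB U hU
    refine ⟨_, Bornology.IsVonNBounded.image hB (ContinuousLinearMap.inl ℝ E F), fun h hh =>
      ⟨_, ⟨h, hh, rfl⟩, ?_⟩⟩
    have : h - (ContinuousLinearMap.fst ℝ E F) ((ContinuousLinearMap.inl ℝ E F) h) = 0 := by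
      simp
    rw [this]
    exact mem_of_mem_nhds hU
  tfae_have 3 → 1 := by
    rintro ⟨G, i1, i2, i3, i4, i5, i6, i7, h, T, hT⟩
    exact fds_image (fds_of_asplund h) T hT
  tfae_finish

theorem main_g [LocallyConvexSpace ℝ E] [T2Space E] :
    [IsGDS E, WeakAsplundFactor E, WeakAsplundImage E].TFAE := by
  tfae_have 1 → 2 := fun h => gateaux_main.1 h
  tfae_have 2 → 3 := by
    rintro ⟨F, i1, i2, i3, i4, i5, i6, i7, h⟩
    refine ⟨E × F, inferInstance, inferInstance, inferInstance, inferInstance, inferInstance,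
      inferInstance, inferInstance, h, ContinuousLinearMap.fst ℝ E F, ?_⟩
    exact Prod.fst_surjective.denseRange
  tfae_have 3 → 1 := by
    rintro ⟨G, i1, i2, i3, i4, i5, i6, i7, h, T, hT⟩
    exact gds_image (gds_of_weak h) T hT
  tfae_finish

end Pool.Agent.Y264.AI
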